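import Pool.Agent.Lib.MP_f3b2fd_co.KEP.Z.Asm
import Pool.Agent.Lib.MP_f3b2fd_co.KEP.N.G3
import Pool.Agent.Lib.MP_f3b2fd_co.KEP.B.D.Glue
import Pool.Agent.Lib.MP_f3b2fd_co.KEP.B.Cv.Cov
import Pool.Agent.Lib.MP_f3b2fd_co.KEP.B.Tau.Main

/-! Assembly: the final statement from the refutation of all listed complexes. -/

namespace Pool.Agent.Lib.MP_f3b2fd_co.KZ

theorem tauK : KT.TauS KD.hs := KT.tauS KD.hs_sq.ge (KD.hs_le.trans (by norm_num))

theorem fifS : KD.FifS := fun _ _ _ t h => tauK.card_le t (h.trans (by norm_num))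

theorem asm2 (r : KD.GA.All fun hd => KD.RefH hd 0 KD.top) : KU.FinU :=
  asm KN.g3 (KD.stB_of fifS KD.covS r)

end Pool.Agent.Lib.MP_f3b2fd_co.KZ
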