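import Pool.Agent.Lib.MP_f3b2fd_co.KEP.A.All2
import Pool.Agent.Lib.MP_f3b2fd_co.KEP.N.G2
import Pool.Agent.Lib.MP_f3b2fd_co.KEP.N.G4p
import Pool.Agent.Lib.MP_f3b2fd_co.KEP.N.Qs
import Pool.Agent.Lib.MP_f3b2fd_co.KEP.U.Ang
import Pool.Agent.Lib.MP_f3b2fd_co.KEP.U.Area
import Pool.Agent.Lib.MP_f3b2fd_co.KEP.U.Four
import Pool.Agent.Lib.MP_f3b2fd_co.KEP.U.Cap
import Pool.Agent.Lib.MP_f3b2fd_co.KEP.U.Frame
import Pool.Agent.Lib.MP_f3b2fd_co.KEP.U.Iso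
import Pool.Agent.Lib.MP_f3b2fd_co.KEP.U.Lay
import Pool.Agent.Lib.MP_f3b2fd_co.KEP.U.Lay1
import Pool.Agent.Lib.MP_f3b2fd_co.KEP.U.Lay2
import Pool.Agent.Lib.MP_f3b2fd_co.KEP.U.Loc
import Pool.Agent.Lib.MP_f3b2fd_co.KEP.U.Up
import Pool.Agent.Lib.MP_f3b2fd_co.KEP.U.Typ
import Pool.Agent.Lib.MP_f3b2fd_co.KEP.U.Pat
import Pool.Agent.Lib.MP_f3b2fd_co.KEP.B.D.Drv

/-! Assembly: the final statement from the remaining parts. -/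

namespace Pool.Agent.Lib.MP_f3b2fd_co.KZ

theorem ff_one : KN.ff 1 = 1 := by
  rw [KN.ff, KN.FF1 (by norm_num), KN.lin]
  norm_num

theorem asm (g3 : KA.G3p KA.m1 (KN.PP KA.m2))
    (hB : KEP.StB KN.ff KD.hs (1 / 1024)) : KU.FinU :=
  KU.finU KU.upS (KU.locS (KU.typS KU.angS KU.areaS (KU.fourS KU.angS KU.areaS)) KU.patS)
    (KU.layS KU.lay1S (KU.lay2S KU.capS) KU.satS KU.frameS) KU.isoS
    KD.one_le_hs KD.hs_sq.ge (by rw [KD.hs_sq]; norm_num) le_rfl KN.ff_nonneg ff_one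
    (KA.as2 _ _ _ _ KA.m1_pos.le KA.m2_pos.le KA.six_m1 KN.ff_nonneg KN.g2 g3
      (KS.g4p KN.AA.qs) (KN.clS _))
    hB (KN.ff_zero KD.hs_pos KD.hs_sq.ge) (KN.ff_slope (KD.hs_le.trans (by norm_num)))

end Pool.Agent.Lib.MP_f3b2fd_co.KZ
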